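import Mathlib

/-! Eigenvalues with multiplicities: tensor products, sums. -/

set_option autoImplicit false

open Finset TensorProduct

namespace Pool.Agent.Q259.NW

section alg

variable {F : Type*} [Field F] {V : Type*} [AddCommGroup V] [Module F V]
  [Module.Finite F V]

lemma trace_restrict_pow (f : Module.End F V) (μ : F) (m : ℕ)
    (h : Set.MapsTo (f ^ m) (f.maxGenEigenspace μ) (f.maxGenEigenspace μ)) :
    LinearMap.trace F _ ((f ^ m).restrict h) = μ ^ m * Module.finrank F (f.maxGenEigenspace μ) := by
  induction m with
  | zero =>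
    have : (f ^ 0).restrict h = LinearMap.id := by ext x; simp
    rw [this, LinearMap.trace_id, pow_zero, one_mul]
  | succ m ih =>
    have h1 : Set.MapsTo (f ^ m) (f.maxGenEigenspace μ) (f.maxGenEigenspace μ) :=
      f.mapsTo_maxGenEigenspace_of_comm ((Commute.refl f).pow_right m) μ
    have h2 : Set.MapsTo f (f.maxGenEigenspace μ) (f.maxGenEigenspace μ) :=
      f.mapsTo_maxGenEigenspace_of_comm rfl μ
    have h3 : (f ^ (m + 1)).restrict h = (f ^ m).restrict h1 ∘ₗ f.restrict h2 := by
      ext x
      rfl
    have hc : Commute ((f ^ m).restrict h1) (f.restrict h2) :=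
      LinearMap.restrict_commute ((Commute.refl f).pow_left m) _ _
    rw [h3, LinearMap.trace_comp_eq_mul_of_commute_of_isNilpotent μ hc
      (f.isNilpotent_restrict_maxGenEigenspace_sub_algebraMap μ), ih h1]
    ring

lemma trace_pow_alg [IsAlgClosed F] (f : Module.End F V) (m : ℕ) :
    LinearMap.trace F V (f ^ m) = (f.charpoly.roots.map (fun x => x ^ m)).sum := by
  classical
  have hds := DirectSum.isInternal_submodule_of_iSupIndep_of_iSup_eq_top
      f.independent_maxGenEigenspace (Module.End.iSup_maxGenEigenspace_eq_top f)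
  have h_fin : {μ | f.maxGenEigenspace μ ≠ ⊥}.Finite :=
      WellFoundedGT.finite_ne_bot_of_iSupIndep f.independent_maxGenEigenspace
  have hmt : ∀ μ, Set.MapsTo (f ^ m) (f.maxGenEigenspace μ) (f.maxGenEigenspace μ) :=
    fun μ => f.mapsTo_maxGenEigenspace_of_comm ((Commute.refl f).pow_right m) μ
  rw [LinearMap.trace_eq_sum_trace_restrict' hds h_fin hmt,
    Finset.sum_congr rfl fun μ _ => trace_restrict_pow f μ m (hmt μ),
    Finset.sum_multiset_map_count]
  have h1 : ∀ μ, μ ∈ h_fin.toFinset ↔ μ ∈ f.charpoly.roots.toFinset := by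
    intro μ
    rw [Set.Finite.mem_toFinset, Set.mem_ofPred_eq, Multiset.mem_toFinset,
      Polynomial.mem_roots (LinearMap.charpoly_monic f).ne_zero,
      ← Module.End.hasEigenvalue_iff_isRoot_charpoly]
    rw [← Polynomial.rootMultiplicity_pos (LinearMap.charpoly_monic f).ne_zero |>.trans
      (Module.End.hasEigenvalue_iff_isRoot_charpoly f μ).symm,
      ← LinearMap.finrank_maxGenEigenspace_eq, Module.finrank_pos_iff,
      ← Submodule.nontrivial_iff_ne_bot]
  rw [Finset.ext h1]
  apply Finset.sum_congr rfl
  intro μ _
  rw [LinearMap.finrank_maxGenEigenspace_eq, Polynomial.count_roots, nsmul_eq_mul, mul_comm]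

end alg

/-- a multiset is determined by its power sums -/
lemma eq_of_psum {F : Type*} [Field F] [CharZero F] {s t : Multiset F}
    (h : ∀ m : ℕ, (s.map (fun x => x ^ m)).sum = (t.map (fun x => x ^ m)).sum) : s = t := by
  classical
  have hli : LinearIndependent F (fun x : F => ((powersHom F x : Multiplicative ℕ →* F) :
      Multiplicative ℕ → F)) :=
    (linearIndependent_monoidHom (Multiplicative ℕ) F).comp (powersHom F) (powersHom F).injective
  rw [linearIndependent_iff'] at hli
  have key := hli (s.toFinset ∪ t.toFinset) (fun x => (s.count x : F) - t.count x) (by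
    funext k
    rw [Finset.sum_apply]
    obtain ⟨m, hm⟩ : ∃ m : ℕ, k = Multiplicative.ofAdd m := ⟨Multiplicative.toAdd k, rfl⟩
    rw [hm]
    have e : ∀ (u : Multiset F), u.toFinset ⊆ s.toFinset ∪ t.toFinset →
        (u.map (fun x => x ^ m)).sum = ∑ x ∈ s.toFinset ∪ t.toFinset, (u.count x : F) * x ^ m := by
      intro u hu
      rw [Finset.sum_multiset_map_count]
      simp only [nsmul_eq_mul]
      apply Finset.sum_subset hu
      intro x _ hx
      rw [Multiset.mem_toFinset] at hx
      rw [Multiset.count_eq_zero_of_notMem hx, Nat.cast_zero, zero_mul]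
    have h1 := h m
    rw [e s Finset.subset_union_left, e t Finset.subset_union_right, ← sub_eq_zero,
      ← Finset.sum_sub_distrib] at h1
    rw [Pi.zero_apply, ← h1]
    apply Finset.sum_congr rfl
    intro x _
    simp [sub_mul])
  ext x
  by_cases hx : x ∈ s.toFinset ∪ t.toFinset
  · have := key x hx
    rw [sub_eq_zero] at this
    exact_mod_cast this
  · rw [Finset.mem_union, Multiset.mem_toFinset, Multiset.mem_toFinset, not_or] at hx
    rw [Multiset.count_eq_zero_of_notMem hx.1, Multiset.count_eq_zero_of_notMem hx.2]

section eigs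

variable {K : Type*} [Field K] {V : Type*} [AddCommGroup V] [Module K V] [Module.Finite K V]
  {W : Type*} [AddCommGroup W] [Module K W] [Module.Finite K W]

/-- The eigenvalues of an operator in the algebraic closure, with multiplicities: the roots of the
characteristic polynomial. -/
noncomputable def eigs (f : Module.End K V) : Multiset (AlgebraicClosure K) :=
  f.charpoly.aroots (AlgebraicClosure K)

lemma eigs_psum (f : Module.End K V) (m : ℕ) : ((eigs f).map (fun x => x ^ m)).sum =
    algebraMap K (AlgebraicClosure K) (LinearMap.trace K V (f ^ m)) := by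
  rw [eigs, Polynomial.aroots_def, ← LinearMap.charpoly_baseChange, ← trace_pow_alg,
    ← LinearMap.baseChange_pow, LinearMap.trace_baseChange]

lemma card_eigs (f : Module.End K V) : Multiset.card (eigs f) = Module.finrank K V := by
  rw [eigs, IsAlgClosed.card_aroots_eq_natDegree, LinearMap.charpoly_natDegree]

variable [CharZero K]

lemma eigs_congr {f : Module.End K V} {g : Module.End K W}
    (h : ∀ m, LinearMap.trace K V (f ^ m) = LinearMap.trace K W (g ^ m)) : eigs f = eigs g :=
  eq_of_psum fun m => by rw [eigs_psum, eigs_psum, h]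

lemma eigs_equiv {f : Module.End K V} {g : Module.End K W} (e : V ≃ₗ[K] W)
    (h : ∀ x, e (f x) = g (e x)) : eigs f = eigs g := by
  apply eigs_congr
  intro m
  have h1 : g ^ m = e.conj (f ^ m) := by
    have h2 : g = e.conj f := by
      ext x
      rw [LinearEquiv.conj_apply_apply, h, LinearEquiv.apply_symm_apply]
    rw [h2]
    exact (map_pow (LinearEquiv.conjRingEquiv e) f m).symm
  rw [h1, LinearMap.trace_conj']

lemma eigs_tensor (f : Module.End K V) (g : Module.End K W) :
    eigs (TensorProduct.map f g : Module.End K (V ⊗[K] W)) =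
      (eigs f ×ˢ eigs g).map fun p => p.1 * p.2 := by
  apply eq_of_psum
  intro m
  rw [eigs_psum, TensorProduct.map_pow, LinearMap.trace_tensorProduct', map_mul, ← eigs_psum,
    ← eigs_psum, Multiset.map_map]
  generalize eigs f = s
  generalize eigs g = t
  induction s using Multiset.induction_on with
  | empty => simp
  | cons a s ih =>
    rw [Multiset.map_cons, Multiset.sum_cons, add_mul, ih, Multiset.cons_product,
      Multiset.map_add, Multiset.sum_add, Multiset.map_map]
    congr 1
    rw [← Multiset.sum_map_mul_left]
    congr 1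
    apply Multiset.map_congr rfl
    intro x _
    simp [mul_pow]

lemma eigs_prodMap (f : Module.End K V) (g : Module.End K W) :
    eigs (LinearMap.prodMap f g : Module.End K (V × W)) = eigs f + eigs g := by
  apply eq_of_psum
  intro m
  rw [eigs_psum, Multiset.map_add, Multiset.sum_add, eigs_psum, eigs_psum, ← map_add]
  congr 1
  have : (LinearMap.prodMap f g : Module.End K (V × W)) ^ m = LinearMap.prodMap (f ^ m) (g ^ m) := by
    induction m with
    | zero => ext <;> simp
    | succ m ih => rw [pow_succ, ih, pow_succ, pow_succ]; ext <;> simp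
  rw [this, LinearMap.trace_prodMap']

lemma eigs_smul (c : K) (f : Module.End K V) :
    eigs (c • f) = (eigs f).map fun x => algebraMap K (AlgebraicClosure K) c * x := by
  apply eq_of_psum
  intro m
  rw [eigs_psum, smul_pow, map_smul, smul_eq_mul, map_mul, ← eigs_psum, Multiset.map_map,
    ← Multiset.sum_map_mul_left]
  congr 1
  apply Multiset.map_congr rfl
  intro x _
  simp [mul_pow]

omit [CharZero K] in
lemma zero_notMem_eigs {f : Module.End K V} (hf : Function.Bijective f) : 0 ∉ eigs f := by
  intro h
  rw [eigs, Polynomial.aroots_def, ← LinearMap.charpoly_baseChange, Polynomial.mem_roots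
    (LinearMap.charpoly_monic _).ne_zero, Polynomial.IsRoot.def] at h
  have h1 : Polynomial.eval 0 f.charpoly = 0 := by
    rw [LinearMap.charpoly_baseChange, Polynomial.eval_map, Polynomial.eval₂_at_zero] at h
    rw [← Polynomial.coeff_zero_eq_eval_zero]
    exact (map_eq_zero _).1 h
  have h2 : f.HasEigenvalue 0 := by
    rw [Module.End.hasEigenvalue_iff_isRoot_charpoly]; exact h1
  obtain ⟨v, hv⟩ := h2.exists_hasEigenvector
  have := hv.apply_eq_smul
  rw [zero_smul] at this
  exact hv.2 (hf.1 (by rw [this, map_zero]))

end eigs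

end Pool.Agent.Q259.NW
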