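import Mathlib

/-! Algebraic numbers all of whose conjugates have the same absolute value. -/

set_option autoImplicit false

namespace Pool.Agent.Q259.NW

variable {L : Type*} [Field L] [Algebra ℚ L]

/-- `x` is an algebraic number and all its complex conjugates have the absolute value `r`. -/
def IsPure (r : ℝ) (x : L) : Prop :=
  IsAlgebraic ℚ x ∧ ∀ z ∈ (minpoly ℚ x).rootSet ℂ, ‖z‖ = r

/-- the algebraic numbers in `L` -/
abbrev Qb (L : Type*) [Field L] [Algebra ℚ L] := algebraicClosure ℚ L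

instance : Algebra.IsAlgebraic ℚ (Qb L) := ⟨fun x => (isAlgebraic_algebraMap_iff
  (algebraMap (Qb L) L).injective).1 (mem_algebraicClosure_iff.1 x.2)⟩

lemma isPure_iff {r : ℝ} (x : Qb L) :
    IsPure r (x : L) ↔ ∀ φ : Qb L →ₐ[ℚ] ℂ, ‖φ x‖ = r := by
  have h1 : minpoly ℚ (x : L) = minpoly ℚ x :=
    minpoly.algebraMap_eq (algebraMap (Qb L) L).injective x
  have h2 := Algebra.IsAlgebraic.range_eval_eq_rootSet_minpoly (F := ℚ) (K := Qb L) ℂ x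
  rw [IsPure, h1, ← h2]
  constructor
  · rintro ⟨_, h⟩ φ
    exact h _ ⟨φ, rfl⟩
  · intro h
    refine ⟨mem_algebraicClosure_iff.1 x.2, ?_⟩
    rintro _ ⟨φ, rfl⟩
    exact h φ

lemma isPure_iff' {r : ℝ} {x : L} : IsPure r x ↔
    ∃ h : IsAlgebraic ℚ x, ∀ φ : Qb L →ₐ[ℚ] ℂ, ‖φ ⟨x, mem_algebraicClosure_iff.2 h⟩‖ = r := by
  constructor
  · intro h
    exact ⟨h.1, (isPure_iff ⟨x, mem_algebraicClosure_iff.2 h.1⟩).1 h⟩
  · rintro ⟨h, h'⟩
    exact (isPure_iff ⟨x, mem_algebraicClosure_iff.2 h⟩).2 h'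

lemma IsPure.mul {r s : ℝ} {x y : L} (hx : IsPure r x) (hy : IsPure s y) :
    IsPure (r * s) (x * y) := by
  obtain ⟨ax, hx⟩ := isPure_iff'.1 hx
  obtain ⟨ay, hy⟩ := isPure_iff'.1 hy
  refine isPure_iff'.2 ⟨ax.mul ay, fun φ => ?_⟩
  rw [← hx φ, ← hy φ, ← norm_mul, ← map_mul]
  rfl

lemma IsPure.inv {r : ℝ} {x : L} (hx : IsPure r x) : IsPure r⁻¹ x⁻¹ := by
  obtain ⟨ax, hx⟩ := isPure_iff'.1 hx
  refine isPure_iff'.2 ⟨ax.inv, fun φ => ?_⟩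
  rw [← hx φ, ← norm_inv, ← map_inv₀]
  rfl

lemma IsPure.of_pow {r : ℝ} (hr : 0 ≤ r) {x : L} {m : ℕ} (hm : 1 ≤ m)
    (h : IsPure (r ^ m) (x ^ m)) : IsPure r x := by
  obtain ⟨ax, hx⟩ := isPure_iff'.1 h
  refine isPure_iff'.2 ⟨(IsAlgebraic.of_pow (show 0 < m by omega)) ax, fun φ => ?_⟩
  have h1 := hx φ
  have h2 : ‖φ ⟨x, mem_algebraicClosure_iff.2 ((IsAlgebraic.of_pow (show 0 < m by omega)) ax)⟩‖ ^ m =
      r ^ m := by
    rw [← h1, ← norm_pow, ← map_pow]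
    rfl
  exact (pow_left_inj₀ (norm_nonneg _) hr (by omega)).1 h2

lemma isPure_rat {c : ℚ} (hc : 0 ≤ c) : IsPure (c : ℝ) (algebraMap ℚ L c) := by
  refine isPure_iff'.2 ⟨isAlgebraic_algebraMap c, fun φ => ?_⟩
  have : (⟨algebraMap ℚ L c, mem_algebraicClosure_iff.2 (isAlgebraic_algebraMap c)⟩ : Qb L) =
      (c : Qb L) := Subtype.ext (by simp)
  rw [this, map_ratCast]
  simpa using hc

end Pool.Agent.Q259.NW
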